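import Pool.Agent.Helper34.CAR.GoalsC

/-!
# CAR5-CORE: core block and scalar block
-/

open scoped ComplexOrder ZeroAtInfty
open TopologicalSpace

namespace Pool.Agent.Helper86.CAR

open Pool.Agent.Helper34.CAR Pool.Agent.Helper39.Uct Pool.Agent.Helper39.CR

theorem s_core : S_CORE := by
  intro B _ θ s k m
  induction m with
  | zero =>
    refine ⟨fun a x y => ⟨fun h => ?_, fun h => ?_⟩, fun p x y => ⟨fun h1 h2 => ?_, fun h => ?_⟩⟩
    · exact absurd (Iff.rfl) h
    · exact absurd trivial h
    · change Mt.single p p (1 : B) x y = 1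
      rw [Mt.single_apply]
      have hx : x = p := h1
      subst h2
      rw [if_pos ⟨hx, hx⟩]
    · change Mt.single p p (1 : B) x y = 0
      rw [Mt.single_apply, if_neg]
      rintro ⟨hx, hy⟩
      exact h ⟨hx, hx.trans hy.symm⟩
  | succ m ih =>
    obtain ⟨ih1, ih2⟩ := ih
    obtain ⟨-, -, -, -, -, h6, h7, -⟩ := s.step (k + m)
    refine ⟨fun a x y => ?_, fun p x y => ?_⟩
    · have hpush : s.push k (m + 1) a x y =
          s.K (k + m) (s.push k m a (s.e (k + m) x).1 (s.e (k + m) y).1)
            (s.e (k + m) x).2 (s.e (k + m) y).2 := rfl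
      have hcx : core s k (m + 1) x ↔ (core s k m (s.e (k + m) x).1 ∧
        ((s.e (k + m) x).2 = s.c0 (k + m) ∨ (s.e (k + m) x).2 = s.c1 (k + m))) := Iff.rfl
      have hcy : core s k (m + 1) y ↔ (core s k m (s.e (k + m) y).1 ∧
        ((s.e (k + m) y).2 = s.c0 (k + m) ∨ (s.e (k + m) y).2 = s.c1 (k + m))) := Iff.rfl
      rw [hpush, hcx, hcy]
      generalize (s.e (k + m) x).1 = x'
      generalize (s.e (k + m) x).2 = c
      generalize (s.e (k + m) y).1 = y'
      generalize (s.e (k + m) y).2 = d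
      have hmix : ¬ (core s k m x' ↔ core s k m y') →
          s.K (k + m) (s.push k m a x' y') c d = 0 := by
        intro h
        rw [(ih1 a x' y').1 h, map_zero, Mt.zero_apply]
      by_cases hx : core s k m x' <;> by_cases hy : core s k m y'
      · refine ⟨fun h => ?_, fun h1 h2 => ?_⟩
        · by_cases hc : c = s.c0 (k + m) ∨ c = s.c1 (k + m)
          · have hd : ¬ (d = s.c0 (k + m) ∨ d = s.c1 (k + m)) := by
              intro hd
              exact h ⟨fun _ => ⟨hy, hd⟩, fun _ => ⟨hx, hc⟩⟩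
            refine h6 _ c d (fun hcd => hd (hcd ▸ hc)) ?_
            rcases hc with hc | hc
            · exact Or.inl hc
            · exact Or.inr (Or.inl hc)
          · have hd : d = s.c0 (k + m) ∨ d = s.c1 (k + m) := by
              by_contra hd
              exact h ⟨fun h' => absurd h'.2 hc, fun h' => absurd h'.2 hd⟩
            refine h6 _ c d (fun hcd => hc (hcd ▸ hd)) ?_
            rcases hd with hd | hd
            · exact Or.inr (Or.inr (Or.inl hd))
            · exact Or.inr (Or.inr (Or.inr hd))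
        · have hc : ¬ (c = s.c0 (k + m) ∨ c = s.c1 (k + m)) := fun h => h1 ⟨hx, h⟩
          have hd : ¬ (d = s.c0 (k + m) ∨ d = s.c1 (k + m)) := fun h => h2 ⟨hy, h⟩
          exact h7 _ c d (fun h => hc (Or.inl h)) (fun h => hc (Or.inr h))
            (fun h => hd (Or.inl h)) (fun h => hd (Or.inr h))
      · have h0 := hmix (fun h => hy (h.1 hx))
        exact ⟨fun _ => h0, fun _ _ => ⟨0, by rw [h0, map_zero]⟩⟩
      · have h0 := hmix (fun h => hx (h.2 hy))
        exact ⟨fun _ => h0, fun _ _ => ⟨0, by rw [h0, map_zero]⟩⟩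
      · refine ⟨fun h => absurd ⟨fun h' => absurd h'.1 hx, fun h' => absurd h'.1 hy⟩ h,
          fun _ _ => ?_⟩
        obtain ⟨z, hz⟩ := (ih1 a x' y').2 hx hy
        rw [hz, AlgHomClass.commutes, Mt.algebraMap_apply]
        by_cases hcd : c = d
        · exact ⟨z, by rw [if_pos hcd]⟩
        · exact ⟨0, by rw [if_neg hcd, map_zero]⟩
    · have hpush : s.push k (m + 1) (Mt.single p p 1) x y =
          s.K (k + m) (s.push k m (Mt.single p p 1) (s.e (k + m) x).1 (s.e (k + m) y).1)
            (s.e (k + m) x).2 (s.e (k + m) y).2 := rfl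
      have hdx : desc s k p (m + 1) x ↔ desc s k p m (s.e (k + m) x).1 := Iff.rfl
      rw [hpush, hdx]
      refine ⟨fun h1 h2 => ?_, fun h => ?_⟩
      · subst h2
        rw [(ih2 p _ _).1 h1 rfl, map_one, Mt.one_apply_eq]
      · by_cases hd : desc s k p m (s.e (k + m) x).1 ∧ (s.e (k + m) x).1 = (s.e (k + m) y).1
        · rw [(ih2 p _ _).1 hd.1 hd.2, map_one, Mt.one_apply_ne]
          intro hcd
          exact h ⟨hd.1, (s.e (k + m)).injective (Prod.ext hd.2 hcd)⟩
        · rw [(ih2 p _ _).2 hd, map_zero, Mt.zero_apply]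

end Pool.Agent.Helper86.CAR
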