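import Pool.Agent.Helper34.CAR.GoalsA

/-!
# CAR-HOM: concatenation of the two chains
-/

open scoped ComplexOrder ZeroAtInfty

namespace Pool.Agent.Helper86.CAR

open Pool.Agent.Helper34.CAR Pool.Agent.Helper39.Uct

theorem chain_trans {X Y : Type} [NonUnitalCStarAlgebra X] [NonUnitalCStarAlgebra Y]
    (F : Finset X) (η : ℝ) (h k l : X → Y) (h1 : Chain F η h k) (h2 : Chain F η k l) :
    Chain F η h l := by
  obtain ⟨m, c, hc0, hcm, hc⟩ := h1
  obtain ⟨m', d, hd0, hdm, hd⟩ := h2
  refine ⟨m + m', fun i => if i ≤ m then c i else d (i - m), ?_, ?_, ?_⟩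
  · intro x
    simp [hc0]
  · intro x
    rcases Nat.eq_zero_or_pos m' with h0 | h0
    · subst h0
      have := hdm x
      rw [hd0] at this
      simp [hcm, this]
    · have : ¬ (m + m' ≤ m) := by omega
      simp [this, hdm]
  · intro x hx i hi
    rcases lt_trichotomy i m with him | him | him
    · have h3 : i ≤ m := him.le
      have h4 : i + 1 ≤ m := him
      simp only [h3, h4, if_true]
      exact hc x hx i him
    · subst him
      have h4 : ¬ (i + 1 ≤ i) := by omega
      have h5 : i + 1 - i = 0 + 1 := by omega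
      simp only [le_refl, if_true, h4, if_false, h5]
      rw [hcm, ← hd0]
      exact hd x hx 0 (by omega)
    · have h3 : ¬ (i ≤ m) := by omega
      have h4 : ¬ (i + 1 ≤ m) := by omega
      have h5 : i + 1 - m = (i - m) + 1 := by omega
      simp only [h3, h4, if_false, h5]
      exact hd x hx (i - m) (by omega)

theorem tendsto_abs_cc : Filter.Tendsto (fun t : ℝ => |t|) (Filter.cocompact ℝ)
    (Filter.cocompact ℝ) := by
  have h : Filter.Tendsto (fun t : ℝ => |t|) (Filter.cocompact ℝ) Filter.atTop :=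
    tendsto_norm_cocompact_atTop
  exact h.mono_right atTop_le_cocompact

theorem tendsto_neg_abs_cc : Filter.Tendsto (fun t : ℝ => -|t|) (Filter.cocompact ℝ)
    (Filter.cocompact ℝ) := by
  have h : Filter.Tendsto (fun t : ℝ => |t|) (Filter.cocompact ℝ) Filter.atTop :=
    tendsto_norm_cocompact_atTop
  exact (Filter.tendsto_neg_atTop_atBot.comp h).mono_right atBot_le_cocompact

theorem s_hom (hR : S_HOMR) (hS : S_HOMS) : S_HOM := by
  intro E _ F η hη
  have hP : ∀ (f : C₀(ℝ, E)) (t : ℝ),
      cmp E (fun t => |t|) continuous_abs tendsto_abs_cc f t = f |t| := fun f t => rfl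
  have hM : ∀ (f : C₀(ℝ, E)) (t : ℝ),
      cmp E (fun t => -|t|) (continuous_abs.neg) tendsto_neg_abs_cc f t = f (-|t|) := fun f t => rfl
  exact chain_trans F η _ _ _ (hR E _ _ hP hM F η hη) (hS E _ _ hP hM F η hη)

end Pool.Agent.Helper86.CAR
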